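import Mathlib

/-!
# MP_4f615a_lc: neither GL.3 nor Grz.3 has the Lyndon positivity property

More generally, no logic between K4.3 and GL.3 and no logic between K4.3 and Grz.3 has it.
-/

set_option autoImplicit false

namespace Pool.Agent.Results.MP_4f615a_lc.NoLPP

/-! ### Syntax -/

/-- Modal formulas built from literals and constants by conjunction, disjunction, diamond, box. -/
inductive Fm : Type
  | pos (v : ℕ) : Fm
  | neg (v : ℕ) : Fm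
  | bot : Fm
  | top : Fm
  | and (φ ψ : Fm) : Fm
  | or (φ ψ : Fm) : Fm
  | dia (φ : Fm) : Fm
  | box (φ : Fm) : Fm

/-- Negation, by the De Morgan and modal duality laws. -/
def Fm.not : Fm → Fm
  | .pos v => .neg v
  | .neg v => .pos v
  | .bot => .top
  | .top => .bot
  | .and φ ψ => .or φ.not ψ.not
  | .or φ ψ => .and φ.not ψ.not
  | .dia φ => .box φ.not
  | .box φ => .dia φ.not

/-- The biconditional. -/
def Fm.iff (φ ψ : Fm) : Fm := .and (.or φ.not ψ) (.or ψ.not φ)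

/-- The variables of a formula. -/
def Fm.vars : Fm → Finset ℕ
  | .pos v => {v}
  | .neg v => {v}
  | .bot => ∅
  | .top => ∅
  | .and φ ψ => φ.vars ∪ ψ.vars
  | .or φ ψ => φ.vars ∪ ψ.vars
  | .dia φ => φ.vars
  | .box φ => φ.vars

/-- No literal `¬ v` with `v ∈ P` occurs in the formula. -/
def Fm.Positive (P : Finset ℕ) : Fm → Prop
  | .pos _ => True
  | .neg v => v ∉ P
  | .bot => True
  | .top => True
  | .and φ ψ => φ.Positive P ∧ ψ.Positive P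
  | .or φ ψ => φ.Positive P ∧ ψ.Positive P
  | .dia φ => φ.Positive P
  | .box φ => φ.Positive P

/-! ### Kripke semantics and the logics -/

/-- Truth at a point of a Kripke model. -/
def Sat {W : Type} (R : W → W → Prop) (V : ℕ → W → Prop) : W → Fm → Prop
  | x, .pos v => V v x
  | x, .neg v => ¬ V v x
  | _, .bot => False
  | _, .top => True
  | x, .and φ ψ => Sat R V x φ ∧ Sat R V x ψ
  | x, .or φ ψ => Sat R V x φ ∨ Sat R V x ψ
  | x, .dia φ => ∃ y, R x y ∧ Sat R V y φ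
  | x, .box φ => ∀ y, R x y → Sat R V y φ

/-- `K4.3`: the logic of all transitive weakly connected Kripke frames. -/
def K43 : Set Fm :=
  {φ | ∀ (W : Type) (R : W → W → Prop), (∀ x y z, R x y → R y z → R x z) →
    (∀ x y z, R x y → R x z → y = z ∨ R y z ∨ R z y) →
    ∀ (V : ℕ → W → Prop) (x : W), Sat R V x φ}

/-- `GL.3`: the logic of all finite strict linear orders. -/
def GL3 : Set Fm :=
  {φ | ∀ (W : Type) [Fintype W] [LinearOrder W] (V : ℕ → W → Prop) (x : W),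
    Sat (fun y z : W => y < z) V x φ}

/-- `Grz.3`: the logic of all finite reflexive linear orders. -/
def Grz3 : Set Fm :=
  {φ | ∀ (W : Type) [Fintype W] [LinearOrder W] (V : ℕ → W → Prop) (x : W),
    Sat (fun y z : W => y ≤ z) V x φ}

/-! ### Modal algebras and the Lyndon positivity property -/

/-- The value of a formula in a Boolean algebra with an operation `d` for the diamond. -/
def eval {A : Type*} [BooleanAlgebra A] (d : A → A) (θ : ℕ → A) : Fm → A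
  | .pos v => θ v
  | .neg v => (θ v)ᶜ
  | .bot => ⊥
  | .top => ⊤
  | .and φ ψ => eval d θ φ ⊓ eval d θ ψ
  | .or φ ψ => eval d θ φ ⊔ eval d θ ψ
  | .dia φ => d (eval d θ φ)
  | .box φ => (d (eval d θ φ)ᶜ)ᶜ

/-- `A` with the operation `d` is a modal algebra which validates all formulas of `Λ`. -/
def Validates {A : Type*} [BooleanAlgebra A] (d : A → A) (Λ : Set Fm) : Prop :=
  d ⊥ = ⊥ ∧ (∀ a b, d (a ⊔ b) = d a ⊔ d b) ∧ ∀ φ ∈ Λ, ∀ θ : ℕ → A, eval d θ φ = ⊤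

/-- `φ` is `P`-monotone in `Λ`: in every modal algebra that validates `Λ`, its value does not
decrease when the values of the variables in `P` increase and the others stay the same. -/
def Mono.{u} (Λ : Set Fm) (P : Finset ℕ) (φ : Fm) : Prop :=
  ∀ (A : Type u) [BooleanAlgebra A] (d : A → A), Validates d Λ → ∀ θ₁ θ₂ : ℕ → A,
    (∀ v ∉ P, θ₁ v = θ₂ v) → (∀ v ∈ P, θ₁ v ≤ θ₂ v) → eval d θ₁ φ ≤ eval d θ₂ φ

/-- The Lyndon positivity property of `Λ`. -/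
def LPP.{u} (Λ : Set Fm) : Prop :=
  ∀ P Q : Finset ℕ, Disjoint P Q → ∀ φ : Fm, φ.vars ⊆ P ∪ Q → Mono.{u} Λ P φ →
    ∃ α : Fm, α.vars ⊆ P ∪ Q ∧ α.Positive P ∧ φ.iff α ∈ Λ

/-! ### Basic facts -/

theorem sat_not {W : Type} (R : W → W → Prop) (V : ℕ → W → Prop) (φ : Fm) :
    ∀ x, Sat R V x φ.not ↔ ¬ Sat R V x φ := by
  induction φ with
  | pos v => intro x; exact Iff.rfl
  | neg v => intro x; exact not_not.symm
  | bot => intro x; simp [Fm.not, Sat]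
  | top => intro x; simp [Fm.not, Sat]
  | and φ ψ h1 h2 => intro x; simp only [Fm.not, Sat, h1, h2]; tauto
  | or φ ψ h1 h2 => intro x; simp only [Fm.not, Sat, h1, h2]; tauto
  | dia φ h => intro x; simp only [Fm.not, Sat, h]; push Not; rfl
  | box φ h => intro x; simp only [Fm.not, Sat, h]; push Not; rfl

theorem sat_iff {W : Type} (R : W → W → Prop) (V : ℕ → W → Prop) (φ ψ : Fm) (x : W) :
    Sat R V x (φ.iff ψ) ↔ (Sat R V x φ ↔ Sat R V x ψ) := by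
  simp only [Fm.iff, Sat, sat_not]; tauto

theorem eval_not {A : Type*} [BooleanAlgebra A] (d : A → A) (θ : ℕ → A) (φ : Fm) :
    eval d θ φ.not = (eval d θ φ)ᶜ := by
  induction φ with
  | pos v => rfl
  | neg v => simp [Fm.not, eval]
  | bot => simp [Fm.not, eval]
  | top => simp [Fm.not, eval]
  | and φ ψ h1 h2 => simp [Fm.not, eval, h1, h2]
  | or φ ψ h1 h2 => simp [Fm.not, eval, h1, h2]
  | dia φ h => simp [Fm.not, eval, h]
  | box φ h => simp [Fm.not, eval, h]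

/-! ### Directed bisimulations -/

/-- modal depth -/
def Fm.depth : Fm → ℕ
  | .pos _ => 0
  | .neg _ => 0
  | .bot => 0
  | .top => 0
  | .and φ ψ => max φ.depth ψ.depth
  | .or φ ψ => max φ.depth ψ.depth
  | .dia φ => φ.depth + 1
  | .box φ => φ.depth + 1

theorem transfer {W W' : Type} (R : W → W → Prop) (R' : W' → W' → Prop)
    (V : ℕ → W → Prop) (V' : ℕ → W' → Prop) (Z : ℕ → W → W' → Prop) (P Q : Finset ℕ)
    (hP : ∀ k x y, Z k x y → ∀ v ∈ P, V v x → V' v y)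
    (hQ : ∀ k x y, Z k x y → ∀ v ∈ Q, (V v x ↔ V' v y))
    (forth : ∀ k x y, Z (k + 1) x y → ∀ x', R x x' → ∃ y', R' y y' ∧ Z k x' y')
    (back : ∀ k x y, Z (k + 1) x y → ∀ y', R' y y' → ∃ x', R x x' ∧ Z k x' y')
    (α : Fm) : α.vars ⊆ P ∪ Q → α.Positive P → ∀ k x y, α.depth ≤ k → Z k x y →
      Sat R V x α → Sat R' V' y α := by
  induction α with
  | pos v =>
    intro hv _ k x y _ hZ h
    have : v ∈ P ∪ Q := hv (by simp [Fm.vars])
    rcases Finset.mem_union.1 this with hv | hv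
    · exact hP k x y hZ v hv h
    · exact (hQ k x y hZ v hv).1 h
  | neg v =>
    intro hv hp k x y _ hZ h
    have : v ∈ P ∪ Q := hv (by simp [Fm.vars])
    rcases Finset.mem_union.1 this with hv | hv
    · exact absurd hv hp
    · exact fun h' => h ((hQ k x y hZ v hv).2 h')
  | bot => intro _ _ k x y _ _ h; exact h
  | top => intro _ _ k x y _ _ h; exact h
  | and φ ψ h1 h2 =>
    intro hv hp k x y hd hZ h
    simp only [Fm.vars, Finset.union_subset_iff] at hv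
    simp only [Fm.depth, max_le_iff] at hd
    exact ⟨h1 hv.1 hp.1 k x y hd.1 hZ h.1, h2 hv.2 hp.2 k x y hd.2 hZ h.2⟩
  | or φ ψ h1 h2 =>
    intro hv hp k x y hd hZ h
    simp only [Fm.vars, Finset.union_subset_iff] at hv
    simp only [Fm.depth, max_le_iff] at hd
    rcases h with h | h
    · exact Or.inl (h1 hv.1 hp.1 k x y hd.1 hZ h)
    · exact Or.inr (h2 hv.2 hp.2 k x y hd.2 hZ h)
  | dia φ h1 =>
    intro hv hp k x y hd hZ h
    obtain ⟨k, rfl⟩ : ∃ j, k = j + 1 := ⟨k - 1, by simp only [Fm.depth] at hd; omega⟩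
    obtain ⟨x', hx', hs⟩ := h
    obtain ⟨y', hy', hz⟩ := forth k x y hZ x' hx'
    exact ⟨y', hy', h1 hv hp k x' y' (by simp only [Fm.depth] at hd; omega) hz hs⟩
  | box φ h1 =>
    intro hv hp k x y hd hZ h
    obtain ⟨k, rfl⟩ : ∃ j, k = j + 1 := ⟨k - 1, by simp only [Fm.depth] at hd; omega⟩
    intro y' hy'
    obtain ⟨x', hx', hz⟩ := back k x y hZ y' hy'
    exact h1 hv hp k x' y' (by simp only [Fm.depth] at hd; omega) hz (h x' hx')

/-! ### The formula for GL.3 -/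

/-- `(◇p ∧ ¬◇(¬p ∧ ◇p)) ∨ ◇(p ∧ ◇p)` -/
def phi (p : Fm) : Fm :=
  .or (.and (.dia p) (Fm.not (.dia (.and p.not (.dia p))))) (.dia (.and p (.dia p)))

/-- `(◇(r∧p) ∧ ¬◇(r ∧ ¬p ∧ ◇(¬r ∧ ◇(r∧p)))) ∨ ◇(r ∧ p ∧ ◇(¬r ∧ ◇(r∧p)))` -/
def psi (p r : Fm) : Fm :=
  .or (.and (.dia (.and r p))
    (Fm.not (.dia (.and (.and r p.not) (.dia (.and r.not (.dia (.and r p))))))))
    (.dia (.and (.and r p) (.dia (.and r.not (.dia (.and r p))))))

theorem phi_frame {W : Type} (R : W → W → Prop) (htr : ∀ x y z, R x y → R y z → R x z)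
    (hwc : ∀ x y z, R x y → R x z → y = z ∨ R y z ∨ R z y) (p q : W → Prop)
    (hpq : ∀ x, p x → q x) (w : W)
    (h : ((∃ y, R w y ∧ p y) ∧ ¬ ∃ y, R w y ∧ ¬ p y ∧ ∃ z, R y z ∧ p z) ∨
      (∃ y, R w y ∧ p y ∧ ∃ z, R y z ∧ p z)) :
    ((∃ y, R w y ∧ q y) ∧ ¬ ∃ y, R w y ∧ ¬ q y ∧ ∃ z, R y z ∧ q z) ∨
      (∃ y, R w y ∧ q y ∧ ∃ z, R y z ∧ q z) := by
  rcases h with ⟨⟨y, hwy, hy⟩, h⟩ | ⟨y, hwy, hy, z, hyz, hz⟩
  · by_cases hc : ∃ y, R w y ∧ ¬ q y ∧ ∃ z, R y z ∧ q z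
    · obtain ⟨z, hwz, hz, u, hzu, hu⟩ := hc
      rcases hwc w y z hwy hwz with rfl | hyz | hzy
      · exact absurd (hpq _ hy) hz
      · exact Or.inr ⟨y, hwy, hpq _ hy, u, htr _ _ _ hyz hzu, hu⟩
      · exact absurd ⟨z, hwz, fun hz' => hz (hpq _ hz'), y, hzy, hy⟩ h
    · exact Or.inl ⟨⟨y, hwy, hpq _ hy⟩, hc⟩
  · exact Or.inr ⟨y, hwy, hpq _ hy, z, hyz, hpq _ hz⟩

theorem psi_frame {W : Type} (R : W → W → Prop) (htr : ∀ x y z, R x y → R y z → R x z)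
    (hwc : ∀ x y z, R x y → R x z → y = z ∨ R y z ∨ R z y) (p q r : W → Prop)
    (hpq : ∀ x, p x → q x) (w : W)
    (h : ((∃ y, R w y ∧ r y ∧ p y) ∧ ¬ ∃ y, R w y ∧ (r y ∧ ¬ p y) ∧ ∃ z, R y z ∧ ¬ r z ∧
        ∃ u, R z u ∧ r u ∧ p u) ∨
      (∃ y, R w y ∧ (r y ∧ p y) ∧ ∃ z, R y z ∧ ¬ r z ∧ ∃ u, R z u ∧ r u ∧ p u)) :
    ((∃ y, R w y ∧ r y ∧ q y) ∧ ¬ ∃ y, R w y ∧ (r y ∧ ¬ q y) ∧ ∃ z, R y z ∧ ¬ r z ∧
        ∃ u, R z u ∧ r u ∧ q u) ∨
      (∃ y, R w y ∧ (r y ∧ q y) ∧ ∃ z, R y z ∧ ¬ r z ∧ ∃ u, R z u ∧ r u ∧ q u) := by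
  rcases h with ⟨⟨y, hwy, hry, hy⟩, h⟩ | ⟨y, hwy, hy, z, hyz, hz, u, hzu, hu⟩
  · by_cases hc : ∃ y, R w y ∧ (r y ∧ ¬ q y) ∧ ∃ z, R y z ∧ ¬ r z ∧ ∃ u, R z u ∧ r u ∧ q u
    · obtain ⟨z, hwz, ⟨hrz, hqz⟩, u, hzu, hu, v, huv, hv⟩ := hc
      rcases hwc w y u hwy (htr _ _ _ hwz hzu) with rfl | hyu | huy
      · exact absurd hry hu
      · exact Or.inr ⟨y, hwy, ⟨hry, hpq _ hy⟩, u, hyu, hu, v, huv, hv⟩
      · exact absurd ⟨z, hwz, ⟨hrz, fun hz' => hqz (hpq _ hz')⟩, u, hzu, hu, y, huy, hry, hy⟩ h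
    · exact Or.inl ⟨⟨y, hwy, hry, hpq _ hy⟩, hc⟩
  · exact Or.inr ⟨y, hwy, ⟨hy.1, hpq _ hy.2⟩, z, hyz, hz, u, hzu, hu.1, hpq _ hu.2⟩

theorem sat_phi {W : Type} (R : W → W → Prop) (V : ℕ → W → Prop) (x : W) (p : Fm) :
    Sat R V x (phi p) ↔
    ((∃ y, R x y ∧ Sat R V y p) ∧ ¬ ∃ y, R x y ∧ ¬ Sat R V y p ∧ ∃ z, R y z ∧ Sat R V z p) ∨
      (∃ y, R x y ∧ Sat R V y p ∧ ∃ z, R y z ∧ Sat R V z p) := by
  simp only [phi, Sat, sat_not]

theorem sat_psi {W : Type} (R : W → W → Prop) (V : ℕ → W → Prop) (x : W) (p r : Fm) :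
    Sat R V x (psi p r) ↔
    ((∃ y, R x y ∧ Sat R V y r ∧ Sat R V y p) ∧
      ¬ ∃ y, R x y ∧ (Sat R V y r ∧ ¬ Sat R V y p) ∧ ∃ z, R y z ∧ ¬ Sat R V z r ∧
        ∃ u, R z u ∧ Sat R V u r ∧ Sat R V u p) ∨
      (∃ y, R x y ∧ (Sat R V y r ∧ Sat R V y p) ∧ ∃ z, R y z ∧ ¬ Sat R V z r ∧
        ∃ u, R z u ∧ Sat R V u r ∧ Sat R V u p) := by
  simp only [psi, Sat, sat_not]

theorem phi_mem : Fm.or (phi (.pos 0)).not (phi (.or (.pos 0) (.pos 2))) ∈ K43 := by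
  intro W R htr hwc V w
  by_cases h : Sat R V w (phi (.pos 0))
  · refine Or.inr ?_
    rw [sat_phi] at h ⊢
    exact phi_frame R htr hwc _ _ (fun x hx => Or.inl hx) w h
  · exact Or.inl ((sat_not _ _ _ _).2 h)

theorem psi_mem : Fm.or (psi (.pos 0) (.pos 1)).not (psi (.or (.pos 0) (.pos 2)) (.pos 1)) ∈
    K43 := by
  intro W R htr hwc V w
  by_cases h : Sat R V w (psi (.pos 0) (.pos 1))
  · refine Or.inr ?_
    rw [sat_psi] at h ⊢
    exact psi_frame R htr hwc _ _ _ (fun x hx => Or.inl hx) w h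
  · exact Or.inl ((sat_not _ _ _ _).2 h)

theorem le_of_compl_sup {A : Type*} [BooleanAlgebra A] (a b : A) (hab : aᶜ ⊔ b = ⊤) : a ≤ b := by
  rw [← himp_eq_top_iff, himp_eq, sup_comm]; exact hab

theorem mono_phi.{u} (Λ : Set Fm) (h : K43 ⊆ Λ) : Mono.{u} Λ {0} (phi (.pos 0)) := by
  intro A _ d hA θ₁ θ₂ _ h2
  have hm := hA.2.2 _ (h phi_mem) (fun n => if n = 0 then θ₁ 0 else θ₂ 0)
  have h0 : θ₁ 0 ⊔ θ₂ 0 = θ₂ 0 := sup_eq_right.2 (h2 0 (by simp))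
  let F : A → A := fun a => (d a ⊓ (d (aᶜ ⊓ d a))ᶜ) ⊔ d (a ⊓ d a)
  have e1 : ∀ θ : ℕ → A, ∀ p : Fm, eval d θ (phi p) = F (eval d θ p) := by
    intro θ p
    simp only [phi, eval, eval_not, F]
  rw [e1, e1]
  have hm2 : (eval d (fun n => if n = 0 then θ₁ 0 else θ₂ 0) (phi (.pos 0)).not) ⊔
    (eval d (fun n => if n = 0 then θ₁ 0 else θ₂ 0) (phi (.or (.pos 0) (.pos 2)))) = ⊤ := hm
  rw [eval_not, e1, e1] at hm2
  have hm3 : (F (θ₁ 0))ᶜ ⊔ F (θ₁ 0 ⊔ θ₂ 0) = ⊤ := hm2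
  rw [h0] at hm3
  exact le_of_compl_sup _ _ hm3

theorem mono_psi.{u} (Λ : Set Fm) (h : K43 ⊆ Λ) :
    Mono.{u} Λ {0} (psi (.pos 0) (.pos 1)) := by
  intro A _ d hA θ₁ θ₂ h1 h2
  let θ : ℕ → A := fun n => if n = 0 then θ₁ 0 else if n = 1 then θ₁ 1 else θ₂ 0
  have hm := hA.2.2 _ (h psi_mem) θ
  have h0 : θ₁ 0 ⊔ θ₂ 0 = θ₂ 0 := sup_eq_right.2 (h2 0 (by simp))
  have hr : θ₂ 1 = θ₁ 1 := (h1 1 (by simp)).symm
  let F : A → A → A := fun a b => (d (b ⊓ a) ⊓ (d ((b ⊓ aᶜ) ⊓ d (bᶜ ⊓ d (b ⊓ a))))ᶜ) ⊔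
        d ((b ⊓ a) ⊓ d (bᶜ ⊓ d (b ⊓ a)))
  have e1 : ∀ θ : ℕ → A, ∀ p r : Fm, eval d θ (psi p r) = F (eval d θ p) (eval d θ r) := by
    intro θ p r
    simp only [psi, eval, eval_not, F]
  rw [e1, e1]
  have hm2 : (eval d θ (psi (.pos 0) (.pos 1)).not) ⊔
    (eval d θ (psi (.or (.pos 0) (.pos 2)) (.pos 1))) = ⊤ := hm
  rw [eval_not, e1, e1] at hm2
  have hm3 : (F (θ₁ 0) (θ₁ 1))ᶜ ⊔ F (θ₁ 0 ⊔ θ₂ 0) (θ₁ 1) = ⊤ := hm2
  rw [h0] at hm3
  have h4 := le_of_compl_sup _ _ hm3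
  show F (θ₁ 0) (θ₁ 1) ≤ F (θ₂ 0) (θ₂ 1)
  rw [hr]
  exact h4

/-! ### The models for GL.3 -/

/-- one point `m` with variable `0`; no other variable is true -/
def VG (L m : ℕ) : ℕ → Fin L → Prop := fun v i => v = 0 ∧ i.val = m

/-- relation for GL.3 -/
def ZG (n k : ℕ) (x y : Fin (n + 4)) : Prop :=
  (x.val = 0 ∧ y.val = 0 ∧ k ≤ n + 1) ∨
  (1 ≤ x.val ∧ 1 ≤ y.val ∧ (x.val = 1 → y.val = 2) ∧
    (x.val = y.val ∨ (x.val + k ≤ n + 3 ∧ y.val + k ≤ n + 3)))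

theorem transfer_G (n : ℕ) (α : Fm) (hv : α.vars ⊆ {0} ∪ ∅) (hp : α.Positive {0})
    (hd : α.depth ≤ n)
    (h : Sat (fun y z : Fin (n + 4) => y < z) (VG (n + 4) 1) 0 α) :
    Sat (fun y z : Fin (n + 4) => y < z) (VG (n + 4) 2) 0 α := by
  refine transfer _ _ (VG (n + 4) 1) (VG (n + 4) 2) (ZG n) {0} ∅ ?_ ?_ ?_ ?_ α hv hp n 0 0 hd
    (Or.inl ⟨rfl, rfl, by omega⟩) h
  · rintro k x y hz v hv ⟨h1, h2⟩
    refine ⟨h1, ?_⟩
    rcases hz with hz | hz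
    · omega
    · exact hz.2.2.1 h2
  · intro k x y hz v hv
    simp at hv
  · intro k x y hz x' hx'
    have hx2 : x.val < x'.val := hx'
    have hxl := x'.isLt
    have hyl := y.isLt
    rcases hz with ⟨h1, h2, h3⟩ | ⟨h1, h2, h3, h4⟩
    · by_cases h : x'.val = 1
      · exact ⟨⟨2, by omega⟩, Fin.lt_def.2 (by simp; omega), Or.inr ⟨by omega, by simp, fun _ => rfl,
          Or.inr ⟨by omega, by simp; omega⟩⟩⟩
      · exact ⟨x', Fin.lt_def.2 (by omega), Or.inr ⟨by omega, by omega, fun h' => absurd h' h,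
          Or.inl rfl⟩⟩
    · rcases h4 with h4 | ⟨h4, h5⟩
      · exact ⟨x', Fin.lt_def.2 (by omega), Or.inr ⟨by omega, by omega, fun h' => by omega,
          Or.inl rfl⟩⟩
      · by_cases h : y.val < x'.val
        · exact ⟨x', Fin.lt_def.2 (by omega), Or.inr ⟨by omega, by omega, fun h' => by omega,
          Or.inl rfl⟩⟩
        · exact ⟨⟨y.val + 1, by omega⟩, Fin.lt_def.2 (by simp), Or.inr ⟨by omega, by simp,
            fun h' => by omega, Or.inr ⟨by omega, by simp; omega⟩⟩⟩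
  · intro k x y hz y' hy'
    have hx2 : y.val < y'.val := hy'
    have hxl := x.isLt
    have hyl := y'.isLt
    rcases hz with ⟨h1, h2, h3⟩ | ⟨h1, h2, h3, h4⟩
    · by_cases h : y'.val = 1
      · exact ⟨⟨2, by omega⟩, Fin.lt_def.2 (by simp; omega), Or.inr ⟨by simp, by omega,
          fun h => by simp at h, Or.inr ⟨by simp; omega, by omega⟩⟩⟩
      · exact ⟨y', Fin.lt_def.2 (by omega), Or.inr ⟨by omega, by omega, fun h' => absurd h' h,
          Or.inl rfl⟩⟩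
    · rcases h4 with h4 | ⟨h4, h5⟩
      · exact ⟨y', Fin.lt_def.2 (by omega), Or.inr ⟨by omega, by omega, fun h' => by omega,
          Or.inl rfl⟩⟩
      · by_cases h : x.val < y'.val
        · exact ⟨y', Fin.lt_def.2 (by omega), Or.inr ⟨by omega, by omega, fun h' => by omega,
          Or.inl rfl⟩⟩
        · exact ⟨⟨x.val + 1, by omega⟩, Fin.lt_def.2 (by simp), Or.inr ⟨by simp, by omega,
            fun h' => by exfalso; have h9 : x.val + 1 = 1 := h'; omega, Or.inr ⟨by simp; omega, by omega⟩⟩⟩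

theorem not_equiv_G (α : Fm) (hv : α.vars ⊆ {0} ∪ ∅) (hp : α.Positive {0})
    (h : (phi (.pos 0)).iff α ∈ GL3) : False := by
  set n := α.depth with hn
  have h1 := h (Fin (n + 4)) (VG (n + 4) 1) 0
  have h2 := h (Fin (n + 4)) (VG (n + 4) 2) 0
  rw [sat_iff] at h1 h2
  have h3 : Sat (fun y z : Fin (n + 4) => y < z) (VG (n + 4) 1) 0 (phi (.pos 0)) := by
    rw [sat_phi]
    refine Or.inl ⟨⟨⟨1, by omega⟩, Fin.lt_def.2 (by simp), ⟨rfl, rfl⟩⟩, ?_⟩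
    rintro ⟨y, hy, hy1, z, hz, hz1, hz2⟩
    have a1 : (0 : ℕ) < y.val := hy
    have a2 : y.val < z.val := hz
    omega
  have h4 := h2.2 (transfer_G n α hv hp le_rfl (h1.1 h3))
  rw [sat_phi] at h4
  rcases h4 with ⟨_, h4⟩ | ⟨y, hy, ⟨_, hy1⟩, z, hz, _, hz1⟩
  · refine h4 ⟨⟨1, by omega⟩, Fin.lt_def.2 (by simp), fun h5 => ?_, ⟨2, by omega⟩,
      Fin.lt_def.2 (by simp), ⟨rfl, rfl⟩⟩
    have := h5.2
    simp at this
  · have a2 : y.val < z.val := hz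
    omega

/-! ### The models for Grz.3 -/

/-- variable `0` at one point `m`; variable `1` at the odd points -/
def VZ (L m : ℕ) : ℕ → Fin L → Prop := fun v i => (v = 0 ∧ i.val = m) ∨ (v = 1 ∧ i.val % 2 = 1)

/-- relation for Grz.3 -/
def ZZ (n k : ℕ) (x y : Fin (2 * n + 6)) : Prop :=
  (x.val = 0 ∧ y.val = 0 ∧ k ≤ n + 1) ∨
  (1 ≤ x.val ∧ 1 ≤ y.val ∧ x.val % 2 = y.val % 2 ∧ (x.val = 1 → y.val = 3) ∧
    (x.val = y.val ∨ (x.val + k ≤ 2 * n + 5 ∧ y.val + k ≤ 2 * n + 5)))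

theorem transfer_Z (n : ℕ) (α : Fm) (hv : α.vars ⊆ {0} ∪ {1}) (hp : α.Positive {0})
    (hd : α.depth ≤ n)
    (h : Sat (fun y z : Fin (2 * n + 6) => y ≤ z) (VZ (2 * n + 6) 1) 0 α) :
    Sat (fun y z : Fin (2 * n + 6) => y ≤ z) (VZ (2 * n + 6) 3) 0 α := by
  refine transfer _ _ (VZ (2 * n + 6) 1) (VZ (2 * n + 6) 3) (ZZ n) {0} {1} ?_ ?_ ?_ ?_ α hv hp
    n 0 0 hd (Or.inl ⟨rfl, rfl, by omega⟩) h
  · rintro k x y hz v hv h
    have hv0 : v = 0 := by simpa using hv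
    subst hv0
    rcases h with ⟨h1, h2⟩ | ⟨h1, h2⟩
    · refine Or.inl ⟨h1, ?_⟩
      rcases hz with hz | hz
      · omega
      · exact hz.2.2.2.1 h2
    · omega
  · intro k x y hz v hv
    have hv0 : v = 1 := by simpa using hv
    subst hv0
    have h2 : x.val % 2 = y.val % 2 := by
      rcases hz with hz | hz
      · omega
      · exact hz.2.2.1
    simp [VZ, h2]
  · intro k x y hz x' hx'
    have hx2 : x.val ≤ x'.val := hx'
    have hxl := x'.isLt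
    have hyl := y.isLt
    rcases hz with ⟨h1, h2, h3⟩ | ⟨h1, h2, h3, h4, h5⟩
    · by_cases h : x'.val = 1
      · exact ⟨⟨3, by omega⟩, Fin.le_def.2 (by simp; omega), Or.inr ⟨by omega, by simp,
          by simp; omega, fun _ => rfl, Or.inr ⟨by omega, by simp; omega⟩⟩⟩
      · by_cases h0 : x'.val = 0
        · exact ⟨⟨0, by omega⟩, Fin.le_def.2 (by show y.val ≤ 0; omega), Or.inl ⟨h0, rfl, by omega⟩⟩
        · exact ⟨x', Fin.le_def.2 (by omega), Or.inr ⟨by omega, by omega, rfl,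
            fun h' => absurd h' h, Or.inl rfl⟩⟩
    · by_cases hx1 : x'.val = 1
      · exact ⟨y, le_rfl, Or.inr ⟨by omega, by omega, by omega, fun _ => h4 (by omega), by omega⟩⟩
      · by_cases h : y.val ≤ x'.val
        · exact ⟨x', Fin.le_def.2 (by omega), Or.inr ⟨by omega, by omega, rfl, fun h' => by omega,
            Or.inl rfl⟩⟩
        · by_cases hpar : x'.val % 2 = y.val % 2
          · exact ⟨y, le_rfl, Or.inr ⟨by omega, by omega, hpar, fun h' => by omega, by omega⟩⟩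
          · exact ⟨⟨y.val + 1, by omega⟩, Fin.le_def.2 (by simp), Or.inr ⟨by omega, by simp,
              by simp; omega, fun h' => by omega, Or.inr ⟨by omega, by simp; omega⟩⟩⟩
  · intro k x y hz y' hy'
    have hx2 : y.val ≤ y'.val := hy'
    have hxl := x.isLt
    have hyl := y'.isLt
    rcases hz with ⟨h1, h2, h3⟩ | ⟨h1, h2, h3, h4, h5⟩
    · by_cases h : y'.val = 1
      · exact ⟨⟨3, by omega⟩, Fin.le_def.2 (by simp; omega), Or.inr ⟨by simp, by omega,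
          by simp; omega, fun h => by simp at h, Or.inr ⟨by simp; omega, by omega⟩⟩⟩
      · by_cases h0 : y'.val = 0
        · exact ⟨⟨0, by omega⟩, Fin.le_def.2 (by show x.val ≤ 0; omega), Or.inl ⟨rfl, h0, by omega⟩⟩
        · exact ⟨y', Fin.le_def.2 (by omega), Or.inr ⟨by omega, by omega, rfl,
            fun h' => absurd h' h, Or.inl rfl⟩⟩
    · by_cases h : x.val ≤ y'.val ∧ y'.val ≠ 1
      · exact ⟨y', Fin.le_def.2 (by omega), Or.inr ⟨by omega, by omega, rfl, fun h' => by omega,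
            Or.inl rfl⟩⟩
      · by_cases hpar : y'.val % 2 = x.val % 2
        · exact ⟨x, le_rfl, Or.inr ⟨by omega, by omega, hpar.symm, fun h' => by omega, by omega⟩⟩
        · exact ⟨⟨x.val + 1, by omega⟩, Fin.le_def.2 (by simp), Or.inr ⟨by simp, by omega,
              by simp; omega, fun h' => by exfalso; have h9 : x.val + 1 = 1 := h'; omega, Or.inr ⟨by simp; omega, by omega⟩⟩⟩

theorem not_equiv_Z (α : Fm) (hv : α.vars ⊆ {0} ∪ {1}) (hp : α.Positive {0})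
    (h : (psi (.pos 0) (.pos 1)).iff α ∈ Grz3) : False := by
  set n := α.depth with hn
  have h1 := h (Fin (2 * n + 6)) (VZ (2 * n + 6) 1) 0
  have h2 := h (Fin (2 * n + 6)) (VZ (2 * n + 6) 3) 0
  rw [sat_iff] at h1 h2
  have h3 : Sat (fun y z : Fin (2 * n + 6) => y ≤ z) (VZ (2 * n + 6) 1) 0
      (psi (.pos 0) (.pos 1)) := by
    rw [sat_psi]
    refine Or.inl ⟨⟨⟨1, by omega⟩, Fin.le_def.2 (by simp), Or.inr ⟨rfl, rfl⟩,
      Or.inl ⟨rfl, rfl⟩⟩, ?_⟩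
    rintro ⟨y, hy, ⟨hy1, hy2⟩, z, hz, hz1, u, hu, hu1, hu2⟩
    have a2 : y.val ≤ z.val := hz
    have a3 : z.val ≤ u.val := hu
    have a4 : u.val = 1 := by
      rcases hu2 with hu2 | hu2
      · exact hu2.2
      · exact absurd hu2.1 (by norm_num)
    have a5 : y.val % 2 = 1 := by
      rcases hy1 with hy1 | hy1
      · exact absurd hy1.1 (by norm_num)
      · exact hy1.2
    have a6 : z.val % 2 ≠ 1 := fun h => hz1 (Or.inr ⟨rfl, h⟩)
    omega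
  have h4 := h2.2 (transfer_Z n α hv hp le_rfl (h1.1 h3))
  rw [sat_psi] at h4
  rcases h4 with ⟨_, h4⟩ | ⟨y, hy, ⟨_, hy1⟩, z, hz, hz1, u, hu, hu1, hu2⟩
  · refine h4 ⟨⟨1, by omega⟩, Fin.le_def.2 (by simp), ⟨Or.inr ⟨rfl, rfl⟩, fun h5 => ?_⟩,
      ⟨2, by omega⟩, Fin.le_def.2 (by simp), fun h5 => ?_, ⟨3, by omega⟩,
      Fin.le_def.2 (by simp), Or.inr ⟨rfl, by simp⟩, Or.inl ⟨rfl, rfl⟩⟩
    · rcases h5 with h5 | h5
      · simp at h5
      · simp at h5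
    · rcases h5 with h5 | h5
      · simp at h5
      · simp at h5
  · have a2 : y.val ≤ z.val := hz
    have a3 : z.val ≤ u.val := hu
    have a4 : u.val = 3 := by
      rcases hu2 with hu2 | hu2
      · exact hu2.2
      · exact absurd hu2.1 (by norm_num)
    have a5 : y.val = 3 := by
      rcases hy1 with hy1 | hy1
      · exact hy1.2
      · exact absurd hy1.1 (by norm_num)
    exact hz1 (Or.inr ⟨rfl, by omega⟩)

theorem phi_vars : (phi (.pos 0)).vars ⊆ ({0} : Finset ℕ) ∪ ∅ := by decide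

theorem psi_vars : (psi (.pos 0) (.pos 1)).vars ⊆ ({0} : Finset ℕ) ∪ {1} := by decide

theorem K43_GL3 : K43 ⊆ GL3 := by
  intro φ h W _ _ V x
  exact h W (fun y z => y < z) (fun _ _ _ h1 h2 => lt_trans h1 h2)
    (fun _ y z _ _ => by rcases lt_trichotomy y z with h | h | h <;> tauto) V x

theorem K43_Grz3 : K43 ⊆ Grz3 := by
  intro φ h W _ _ V x
  exact h W (fun y z => y ≤ z) (fun _ _ _ h1 h2 => le_trans h1 h2)
    (fun _ y z _ _ => Or.inr (le_total y z)) V x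

/-- No logic between `K4.3` and `GL.3`, and no logic between `K4.3` and `Grz.3`, has the Lyndon
positivity property; in particular, neither `GL.3` nor `Grz.3` has it. -/
theorem result.{u} :
    (∀ Λ : Set Fm, K43 ⊆ Λ → (Λ ⊆ GL3 ∨ Λ ⊆ Grz3) → ¬ LPP.{u} Λ) ∧
      ¬ LPP.{u} GL3 ∧ ¬ LPP.{u} Grz3 := by
  have main : ∀ Λ : Set Fm, K43 ⊆ Λ → (Λ ⊆ GL3 ∨ Λ ⊆ Grz3) → ¬ LPP.{u} Λ := by
    rintro Λ h (h' | h') hL
    · obtain ⟨α, h1, h2, h3⟩ := hL {0} ∅ (by simp) (phi (.pos 0)) phi_vars (mono_phi Λ h)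
      exact not_equiv_G α h1 h2 (h' h3)
    · obtain ⟨α, h1, h2, h3⟩ := hL {0} {1} (by simp) (psi (.pos 0) (.pos 1)) psi_vars
        (mono_psi Λ h)
      exact not_equiv_Z α h1 h2 (h' h3)
  exact ⟨main, main _ K43_GL3 (Or.inl subset_rfl), main _ K43_Grz3 (Or.inr subset_rfl)⟩

end Pool.Agent.Results.MP_4f615a_lc.NoLPP
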